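import Pool.Agent.Helper293.SD.Main

/-!
MP_ba5bc1_ag: there is a klt Fano surface (namely `ℙ¹ × ℙ¹`) such that the central fibres of its
special degenerations are not contained in any bounded family. The special degenerations
used are toric surfaces `Y_N` (`N ≥ 0`) with Wahl singularities of indices `2N+5` and `2N+3`, whose
tangent spaces have unbounded dimension.
-/

namespace Pool.Agent.Results.MP_ba5bc1_ag.Unbounded

open Pool.Agent.Helper774.KSing Pool.Agent.Helper293.SD

/-- There is a klt Fano surface `X` such that the set of the central fibres of the special
degenerations of `X` is not bounded. -/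
theorem result : ∃ X : Variety, X.dim = 2 ∧ X.IsFano ∧ X.IsKlt ∧
    ¬ IsBounded (centralFibres X) :=
  Pool.Agent.Helper293.SD.main

end Pool.Agent.Results.MP_ba5bc1_ag.Unbounded
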